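import Pool.Agent.Q137.TC.Main

open TopologicalSpace Pool.Agent.Q137.TC

namespace Pool.Agent.Results.MP_03adb9_gt.TropicalCycle

/-- On `M = ℂ ^ (m + 2) × ℝ ^ k`, foliated by the complex leaves `ℂ ^ (m + 2) × {t}`, there are a
`C`-cycle `c` and a point `x` such that on no open neighbourhood of `x` is `c` a superposition of
pseudoholomorphic curves. -/
theorem result (m k : ℕ) : HasBadCycle (ℂ × ℂ × (Fin m → ℂ)) (Fin k → ℝ) :=
  ⟨trop m k, trop_isCCurrent m k, trop_isCycle m k, 0, not_superposition m k⟩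

end Pool.Agent.Results.MP_03adb9_gt.TropicalCycle
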